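import Mathlib

/-!
# Project CA (helper35): the congruence topology on the abelian subgroups of `Out (F_n)`

Goal (MP_181555_al): let `A ≤ Out (F_n)`, `n ≥ 2`, be virtually abelian (a finitely generated
abelian subgroup has finite index in `A`), and let `B ≤ A` have finite index.  Then there is a characteristic
subgroup `K` of finite index of `F_n` such that every element of `A` which is trivial in
`Out (F_n / K)` is in `B`.  So every finite quotient of `Out (F_n)`, restricted to `A`, factors through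
`Out (F_n) → Out (F_n / K)`.

This file: the statements on number fields and matrices (Chevalley's theorem for commuting integer
matrices).  `Stm2.lean`: the statements on the Magnus expansion.
-/

set_option autoImplicit false

namespace Pool.Agent.V5helper35.CA

open NumberField

/-- **JOB KUM1** (uses `Pool.Agent.W401.Cheb.infinite_frob` from `Pool/Agent/W401/Cheb/Main.lean`).

Proof.  By `infinite_frob M σ` there are a prime `p` not dividing `q` and a ring homomorphism
`φ : 𝓞 M →+* AlgebraicClosure (ZMod p)` with `φ (σ • x) = φ x ^ p` for all `x`.  `ζ` and `z` are integral (`z ^ q`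
is a unit of `𝓞 K`), regard them as elements of `𝓞 M`.  Let `P` be the kernel of `𝓞 K → 𝓞 M → F̄_p`, it is
maximal (nonzero prime: the image is a finite-dimensional domain / integral over `ZMod p`, a field; it
contains `p`).  Take `x` with `y - x ^ q ∈ P`.  Then `∏ j < q, (φ z - φ ζ ^ j φ x) = φ z ^ q - φ x ^ q = φ y - φ x ^ q = 0`
(`IsPrimitiveRoot.pow_sub_pow_eq_prod_sub_mul` or the same in `𝓞 M` before applying `φ`), so `φ z = φ (ζ ^ j x)` for some `j`.
Applying Frobenius: `φ (σ z) = (φ z) ^ p = (φ (ζ ^ j x)) ^ p = φ (σ (ζ ^ j x)) = φ (ζ ^ j x) = φ z`, since `σ` fixes `ζ` and `K`.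
Now `(σ z) ^ q = σ (z ^ q) = z ^ q`, so `σ z = ξ z`, `ξ ^ q = 1` (`z ≠ 0`), and `φ z ≠ 0` (`z` is a unit), so `φ ξ = 1`.
If `ξ ≠ 1` then `ξ - 1` divides `q` in `𝓞 M` (`ξ` is a primitive root of some order `d > 1`, `d ∣ q`;
`∏_{1 ≤ i < q} (1 - ζ ^ i) = q`, `ξ = ζ ^ i`), so `φ q = 0`, `p ∣ q`, a contradiction.  So `σ z = z`. -/
def S_KUM1 : Prop :=
  ∀ (K M : Type) [Field K] [NumberField K] [Field M] [NumberField M] [IsGalois ℚ M] [Algebra K M]
    (q : ℕ), 0 < q → ∀ (y : 𝓞 K) (z ζ : M), IsUnit y → IsPrimitiveRoot ζ q →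
    z ^ q = algebraMap K M (y : K) →
    (∀ P : Ideal (𝓞 K), P.IsMaximal → ∃ x : 𝓞 K, y - x ^ q ∈ P) →
    ∀ σ : M ≃ₐ[ℚ] M, (∀ a : K, σ (algebraMap K M a) = algebraMap K M a) → σ ζ = ζ → σ z = z

/-- A unit of `K` which is an `l ^ (e + v)`-th power modulo all maximal ideals is the product of a root of
unity and an `l ^ e`-th power, if `K` contains no primitive `l ^ (v + 1)`-th root of unity. -/
def S_KUM : Prop :=
  ∀ (K : Type) [Field K] [NumberField K] (l e v : ℕ), l.Prime →
    (∀ ζ : K, ¬ IsPrimitiveRoot ζ (l ^ (v + 1))) → ∀ y : (𝓞 K)ˣ,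
    (∀ P : Ideal (𝓞 K), P.IsMaximal → ∃ x : 𝓞 K, (y : 𝓞 K) - x ^ (l ^ (e + v)) ∈ P) →
    ∃ t u : (𝓞 K)ˣ, IsOfFinOrder t ∧ y = t * u ^ (l ^ e)

/-- **JOB KUM2**: `theorem t_KUM2 : S_KUM2`.

Proof.  `e = 0` is trivial (`t = 1`, `u = y`), let `e ≥ 1`, `q = l ^ (e + v)`.  Let `M` be a finite Galois extension of `ℚ`
(inside an algebraic closure of `K`, for instance a normal closure of `K (ζ, z)`) containing `K`, a primitive
`q`-th root of unity `ζ` and `z` with `z ^ q = y`.  Let `G` be the group of the automorphisms of `M` fixing `K` (as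
`M / ℚ` is Galois, `M / K` is Galois with this group).  By `S_KUM1` every `σ ∈ G` with `σ ζ = ζ` fixes `z`.  For `σ ∈ G`
write `σ ζ = ζ ^ (a σ)`, `σ z = ξ σ * z`, `(ξ σ) ^ q = 1`, so that `σ (ξ τ) = (ξ τ) ^ (a σ)`.  As `σ τ ζ = τ σ ζ`, also `σ τ z = τ σ z`
(apply the first remark to the commutator).  So `ξ τ ^ (a σ) * ξ σ = ξ σ ^ (a τ) * ξ τ`.  Choose `τ ∈ G` which moves the primitive
`l ^ (v + 1)`-th root of unity `ζ ^ (l ^ (e - 1))` (it is not in `K`), and put `a = a τ`; so `l ^ (v + 1)` does not divide `a - 1`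
(take `a ≥ 1`, `a ≠ 1`).  Let `g = z ^ (a - 1) / ξ τ`.  For `σ ∈ G`: `σ g = ξ σ ^ (a - 1) z ^ (a - 1) / ξ τ ^ (a σ) = g` by the formula, so `g ∈ K`, a unit of
`𝓞 K` (integral, and its `q`-th power `y ^ (a - 1)` is a unit): `y ^ (a - 1) = g ^ q`.  Write `a - 1 = l ^ w * b`, `w ≤ v`, `l ∤ b`.  In the torsion-free
group `U / T` (`U = (𝓞 K)ˣ`, `T` its torsion subgroup) `(y ^ b) ^ (l ^ w) = (g ^ (l ^ (e + v - w))) ^ (l ^ w)`, so `y ^ b = g ^ (l ^ (e + v - w))`
modulo `T`, an `l ^ e`-th power; with `b s = 1 + l ^ e r` (`b` is prime to `l`) `y` is an `l ^ e`-th power modulo `T`. -/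
def S_KUM2 : Prop := S_KUM1 → S_KUM

/-- Chevalley's theorem on units: the subgroups of finite index are congruence subgroups. -/
def S_CHU : Prop :=
  ∀ (K : Type) [Field K] [NumberField K] (m : ℕ), 0 < m → ∃ N : ℕ, 0 < N ∧
    ∀ x : (𝓞 K)ˣ, (N : 𝓞 K) ∣ (x : 𝓞 K) - 1 → ∃ u : (𝓞 K)ˣ, x = u ^ m

/-- **JOB CHU1**: `theorem t_CHU1 : S_CHU1`.

Proof.  Let `U = (𝓞 K)ˣ`, finitely generated (Dirichlet), `T` its (finite) torsion subgroup.
(1) For every prime power `q = l ^ e` there is `N > 0` such that `N ∣ x - 1` implies `x ∈ T U^q`: choose `v` with no primitive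
`l ^ (v + 1)`-th root of unity in `K` (finitely many roots of unity).  Put `q' = l ^ (e + v)`.  `U / U^q'` is finite (a finitely generated
commutative group of finite exponent).  For each `y ∉ T U^q` there is by `S_KUM` a maximal ideal `P y` of `𝓞 K` modulo which `y` is
not a `q'`-th power; let `p y > 0` be an integer in `P y` (the characteristic of the residue field, or `absNorm`).  Let `N` be the
product of the `p y`, `y` in a finite set of representatives (outside `T U^q`) of the cosets of `U^q'` not contained in `T U^q`.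
If `N ∣ x - 1` and `x ∉ T U^q` then `x = y w ^ q'` for a representative `y`, so `y ≡ (w⁻¹) ^ q'` modulo `P y`, a contradiction.
(2) For every `m > 0` there is `N` such that `N ∣ x - 1` implies `x ∈ T U^m`: (1) for the prime powers exactly dividing
`m`, and `T U^a ∩ T U^b = T U^(a b)` for coprime `a`, `b` (Bezout in `U / T`).
(3) There is `N₀ > 0` with `N₀ ∤ t - 1` for all `t ∈ T`, `t ≠ 1` (`T` is finite; a nonzero element of `𝓞 K` is not divisible by large
integers, for instance by integers which do not divide its norm).  There is `k > 0` with `N₀ ∣ u ^ k - 1` for all `u ∈ U` (the ring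
`𝓞 K / N₀` is finite).  Take `N = N₀ N₁` with `N₁` from (2) for `m k`: if `N ∣ x - 1` then `x = t u ^ (m k)`, so
`N₀ ∣ t - 1` and `t = 1`, `x = (u ^ k) ^ m`. -/
def S_CHU1 : Prop := S_KUM → S_CHU

/-- **JOB SS**: `theorem t_SS : S_SS1` (`S_SS1 := S_CHU → S_SS`).

Proof.  Let `S` be the `ℚ`-subalgebra of `Matrix (Fin n) (Fin n) ℚ` generated by the matrices `θ a` (with rational entries); it is
commutative and finite-dimensional, so it has finitely many maximal ideals `P`, their intersection consists of nilpotent elements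
(Artinian ring), and the fields `K_P = S / P` are number fields.  For `a ∈ A` the image of `θ a` in `K_P` is a unit of `𝓞 K_P` (integer
matrices are integral over `ℤ` by Cayley-Hamilton, and so is `θ a⁻¹`), this gives homomorphisms `χ P : A →* (𝓞 K_P)ˣ`.
If `N` divides `θ a - 1` then `θ a - 1 = N b`, `b` an integer matrix in `S`, so `N` divides `χ P a - 1` in `𝓞 K_P`.  The group
`∏_P (𝓞 K_P)ˣ` is finitely generated and commutative; let `e > 0` be such that `g ^ k ∈ χ A`, `k > 0`, implies `g ^ e ∈ χ A`, where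
`χ = (χ P)_P` (the torsion subgroup of the quotient by `χ A` is finite).  By `S_CHU` for the exponent `m e` there is an `N` (the product
over the finitely many `P`) such that `N ∣ θ a - 1` implies `χ P a = (u P) ^ (m e)` for all `P`; then `(u P ^ e)_P = χ b` for some
`b ∈ A`, `χ a = χ b ^ m`, and `c = a b ^ (-m)` has `χ c = 1`, so `θ c - 1` is in all `P`, hence nilpotent. -/
def S_SS : Prop :=
  ∀ (A : Type) [CommGroup A] [Group.FG A] (n : ℕ) (θ : A →* Matrix (Fin n) (Fin n) ℤ) (m : ℕ),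
    0 < m → ∃ N : ℕ, 0 < N ∧ ∀ a : A, (∀ i j, (N : ℤ) ∣ (θ a - 1) i j) →
      ∃ b c : A, a = b ^ m * c ∧ IsNilpotent (θ c - 1)

def S_SS1 : Prop := S_CHU → S_SS

/-- **JOB UNI**: `theorem t_UNI : S_UNI`.

Proof.  Let `S` be the (commutative, finite-dimensional) `ℚ`-subalgebra of `Matrix (Fin n) (Fin n) ℚ` generated by the `θ a` and `I` the ideal of
`S` generated by all `θ a - 1`; it is finitely generated by nilpotent elements, so `I ^ r = 0` for some `r ≥ 1`.  Let `A_i` be the
set of the `a` with `θ a - 1 ∈ I ^ i`, a subgroup (`θ (a b) - 1 = (θ a - 1) (θ b - 1) + (θ a - 1) + (θ b - 1)`); `A_1 = A`, and `θ a = 1` for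
`a ∈ A_r`.  Claim, by downward induction on `i`, `1 ≤ i ≤ r`: for every `m > 0` there is `N > 0` such that for every `a ∈ A_i` with
`N ∣ θ a - 1` there is `b ∈ A_i` with `θ a = θ b ^ m`.  `i = r`: `b = 1`.  Step from `i + 1` to `i`: the map `f : A_i → I ^ i / I ^ (i + 1)`,
`f a = θ a - 1` mod `I ^ (i + 1)`, is a homomorphism with kernel `A_(i+1)`.  Let `E` be the image of the integer matrices in
`I ^ i`; it is a finitely generated abelian group which contains `f A_i`, so there is `e > 0` such that `x ∈ E`, `k x ∈ f A_i`, `k > 0`, implies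
`e x ∈ f A_i`.  Let `N'` belong to `A_(i+1)` and `m`, and let `k > 0` be such that `N' ∣ θ a ^ k - 1` for all `a` (finite ring
`Matrix _ _ (ZMod N')`).  Put `N = N' m k e`.  If `a ∈ A_i` and `θ a - 1 = N x`, `x` an integer matrix, then `x ∈ I ^ i` (`ℚ`-subspace), and `f a = m k (e x̄)`,
where `e x̄ ∈ f A_i` as `N x̄ = f a`: `f a = m k (f b)`, `b ∈ A_i`.  So `a = b ^ (m k) c` with `c ∈ A_(i+1)`, and `N' ∣ θ c - 1`; so `θ c = θ d ^ m`,
`d ∈ A_(i+1)`, and `θ a = θ (b ^ k d) ^ m`. -/
def S_UNI : Prop :=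
  ∀ (A : Type) [CommGroup A] [Group.FG A] (n : ℕ) (θ : A →* Matrix (Fin n) (Fin n) ℤ),
    (∀ a, IsNilpotent (θ a - 1)) → ∀ m : ℕ, 0 < m → ∃ N : ℕ, 0 < N ∧
      ∀ a : A, (∀ i j, (N : ℤ) ∣ (θ a - 1) i j) → ∃ b : A, θ a = θ b ^ m

/-- **Chevalley's theorem for commuting integer matrices.** -/
def S_CHM : Prop :=
  ∀ (A : Type) [CommGroup A] [Group.FG A] (n : ℕ) (θ : A →* Matrix (Fin n) (Fin n) ℤ) (m : ℕ),
    0 < m → ∃ N : ℕ, 0 < N ∧ ∀ a : A, (∀ i j, (N : ℤ) ∣ (θ a - 1) i j) → ∃ b : A, θ a = θ b ^ m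

/-- **JOB CHM1** (60 lines): `theorem t_CHM1 : S_CHM1`.

Proof.  `A_u = {a | IsNilpotent (θ a - 1)}` is a subgroup (commuting matrices), finitely generated as a subgroup of a finitely
generated commutative group.  Let `N₁` be from `S_UNI` for `A_u`, `m`; `k > 0` with `N₁ ∣ θ (a ^ k) - 1` for all `a ∈ A` (finite ring);
`N₂` from `S_SS` for `m k`; `N = N₁ N₂`.  If `N ∣ θ a - 1` then `a = b ^ (m k) c`, `c ∈ A_u`, `N₁ ∣ θ c - 1`
(as `N₁ ∣ θ a - 1` and `N₁ ∣ θ (b ^ (m k)) - 1`), so `θ c = θ d ^ m`, `d ∈ A_u`, and `θ a = θ (b ^ k d) ^ m`. -/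
def S_CHM1 : Prop := S_SS → S_UNI → S_CHM

end Pool.Agent.V5helper35.CA
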