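import Pool.Agent.V5helper35.CA.Fin4
import Pool.Agent.N77.CS.Fin

/-!
# Project CA: preimages in `Aut (F_n)` of virtually abelian subgroups of `Out (F_n)`, and the operations
`step` and `Prd`
-/

set_option autoImplicit false

namespace Pool.Agent.V5helper35.CA

open Pool.Agent.R387.TC Pool.Agent.N77.CS

/-- the congruence property for a subset of `Out (F (n + 1))`, `n ≥ 1`, implies that for
`Aut (F (n + 1))` -/
theorem cong_of_outCong {n : ℕ} (i0 : Fin n) (S : Set (MulAut (F (n + 1))))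
    (h : OutCong (n + 1) S) : Cong (n + 1) S := by
  intro V hV
  set N := V.normalCore with hN
  have hNV : N ≤ V := Subgroup.normalCore_le V
  have hNfi : N.FiniteIndex := inferInstance
  have hMfi : (N.comap MulAut.conj).FiniteIndex := fi_comap _ _
  obtain ⟨M2, hc2, hf2, hM2⟩ := centre i0 (N.comap MulAut.conj)
  have hT := trivSub_fin M2
  let N2 := N ⊓ trivSub M2
  have hN2n : N2.Normal := inferInstance
  have hN2f : N2.FiniteIndex := inferInstance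
  let I : Subgroup (MulAut (F (n + 1))) := (MulAut.conj : F (n + 1) →* _).range
  have hI : I.Normal := by
    constructor
    rintro _ ⟨g, rfl⟩ ψ
    refine ⟨ψ g, ?_⟩
    ext x
    simp [MulAut.conj_apply]
  obtain ⟨K, hcK, hfK, hK⟩ := h (N2 ⊔ I) inferInstance
    (Subgroup.finiteIndex_of_le (le_sup_left : N2 ≤ N2 ⊔ I))
    (fun g => (le_sup_right : I ≤ N2 ⊔ I) ⟨g, rfl⟩)
  have hcKM : (K ⊓ M2).Characteristic := by
    rw [Subgroup.characteristic_iff_le_comap] at hcK hc2 ⊢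
    intro φ x hx
    exact ⟨hcK φ hx.1, hc2 φ hx.2⟩
  refine ⟨K ⊓ M2, hcKM, inferInstance, ?_⟩
  intro ψ hψS hψ
  have h1 : ψ ∈ N2 ⊔ I := hK ψ hψS ⟨1, fun x => by simpa using (hψ x).1⟩
  rw [← SetLike.mem_coe, Subgroup.normal_mul] at h1
  obtain ⟨v, hv, _, ⟨g, rfl⟩, rfl⟩ := Set.mem_mul.1 h1
  have h2 : MulAut.conj g ∈ trivSub M2 := by
    have h3 : v * MulAut.conj g ∈ trivSub M2 := fun x => (hψ x).2
    have h4 := (trivSub M2).mul_mem ((trivSub M2).inv_mem hv.2) h3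
    rwa [inv_mul_cancel_left] at h4
  have h5 : g ∈ N.comap MulAut.conj := hM2 g (fun x => by
    have := h2 x
    rwa [MulAut.conj_apply] at this)
  exact hNV (N.mul_mem hv.1 h5)

/-- the preimage in `Aut (F_m)` of a virtually abelian subgroup of `Out (F_m)` -/
theorem outCong_ab (m : ℕ) (hm : 2 ≤ m) (A A₀ : Subgroup (Out m)) (h1 : A₀ ≤ A)
    (h2 : A₀.relIndex A ≠ 0) (h3 : A₀.FG) (h4 : ∀ a ∈ A₀, ∀ b ∈ A₀, a * b = b * a) :
    OutCong m {α : MulAut (F m) | (α : Out m) ∈ A} := by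
  intro V hV hVf hVi
  obtain ⟨K, hK, hKf, h⟩ := virt_normal m hm A A₀ h1 h2 h3 h4 V hV hVf hVi
  refine ⟨K, hK, hKf, fun α hα hg => h α 1 ?_ hg⟩
  rw [one_mul, inv_one, mul_one]
  exact hα

theorem cong_ab (m : ℕ) (hm : 2 ≤ m) (A A₀ : Subgroup (Out m)) (h1 : A₀ ≤ A)
    (h2 : A₀.relIndex A ≠ 0) (h3 : A₀.FG) (h4 : ∀ a ∈ A₀, ∀ b ∈ A₀, a * b = b * a) :
    Cong m {α : MulAut (F m) | (α : Out m) ∈ A} := by
  obtain ⟨n, rfl⟩ : ∃ n, m = n + 1 := ⟨m - 1, by omega⟩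
  exact cong_of_outCong (⟨0, by omega⟩ : Fin n) _ (outCong_ab _ hm A A₀ h1 h2 h3 h4)

theorem stab_ab (m : ℕ) (A : Subgroup (Out m)) :
    Stab {α : MulAut (F m) | (α : Out m) ∈ A} (⊤ : Subgroup (F m)) := by
  intro g _ α hα
  have h1 : ((MulAut.conj g * α : MulAut (F m)) : Out m) = (α : Out m) := by
    have h2 : ((MulAut.conj g : MulAut (F m)) : Out m) = 1 := by
      rw [QuotientGroup.eq_one_iff]
      exact ⟨g, rfl⟩
    rw [QuotientGroup.mk_mul, h2, one_mul]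
  change ((MulAut.conj g * α : MulAut (F m)) : Out m) ∈ A
  rw [h1]
  exact hα

/-- what the induction proves -/
def Ok (n : ℕ) (S : Set (MulAut (F n))) : Prop :=
  1 ≤ n ∧ Cong n S ∧ ∃ H, Norm n S H ∧ Stab S H

theorem Ok.out {n : ℕ} {S : Set (MulAut (F n))} (h : Ok n S) : OutCong n S := by
  obtain ⟨-, h1, H, h2, h3⟩ := h
  exact out_of_norm h1 h2 h3

theorem ok_univ (m : ℕ) (hm : 1 ≤ m) (h : 2 ≤ m → OutCong m Set.univ) : Ok m Set.univ :=
  ⟨hm, cong_univ ONE.main hm h, ⊤, norm_top _ _, fun _ _ _ _ => trivial⟩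

theorem ok_ab (m : ℕ) (hm : 2 ≤ m) (A A₀ : Subgroup (Out m)) (h1 : A₀ ≤ A)
    (h2 : A₀.relIndex A ≠ 0) (h3 : A₀.FG) (h4 : ∀ a ∈ A₀, ∀ b ∈ A₀, a * b = b * a) :
    Ok m {α : MulAut (F m) | (α : Out m) ∈ A} :=
  ⟨by omega, cong_ab m hm A A₀ h1 h2 h3 h4, ⊤, norm_top _ _, stab_ab m A⟩

theorem ok_step {n : ℕ} {S : Set (MulAut (F n))} (h : Ok n S) : Ok (n + 1) (step S) := by
  obtain ⟨h0, h1, H, h2, h3⟩ := h
  exact ⟨by omega, cong_step h1, H.map (inc n), norm_step (⟨0, h0⟩ : Fin n) h2, stab_step h3⟩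

theorem ok_prod {k l : ℕ} {S : Set (MulAut (F k))} {T : Set (MulAut (F l))} (h : Ok k S)
    (h' : Ok l T) : Ok (k + l) (Prd S T) := by
  have h0 := h.1
  exact ⟨by omega, ((ASM.main WR.main) _ _ h.1 h'.1 _ _ h.2.1 h'.2.1).1, ⊤, norm_top _ _,
    stab_prd _ _⟩

end Pool.Agent.V5helper35.CA
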