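import Mathlib

/-!
# Project CA: the outer automorphism group and its congruence subgroups
-/

set_option autoImplicit false

namespace Pool.Agent.V5helper35.CA

/-- `α` acts on `G / K` as an inner automorphism -/
def InnMod {G : Type} [Group G] (K : Subgroup G) (α : MulAut G) : Prop :=
  ∃ g : G, ∀ x : G, α x * (g * x * g⁻¹)⁻¹ ∈ K

instance conj_range_normal (G : Type) [Group G] : (MulAut.conj (G := G)).range.Normal := by
  constructor
  rintro _ ⟨g, rfl⟩ α
  refine ⟨α g, ?_⟩
  ext x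
  simp [MulAut.conj_apply, MulAut.mul_apply]

variable {G : Type} [Group G] (K : Subgroup G) (hK : K.Characteristic)
include hK

lemma map_char (α : MulAut G) : K.map α.toMonoidHom = K :=
  (Subgroup.characteristic_iff_map_eq.1 hK) α

/-- the group of the automorphisms that are inner on `G / K`, `K` characteristic -/
def InnGroup : Subgroup (MulAut G) where
  carrier := {α | InnMod K α}
  one_mem' := ⟨1, fun x => by simp⟩
  mul_mem' := by
    rintro α β ⟨g, hg⟩ ⟨h, hh⟩
    refine ⟨g * h, fun x => ?_⟩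
    have h1 := hg (h * x * h⁻¹)
    have h2 : α (β x * (h * x * h⁻¹)⁻¹) ∈ K := by
      rw [← map_char K hK α]
      exact ⟨_, hh x, rfl⟩
    have h3 : (α * β) x * (g * h * x * (g * h)⁻¹)⁻¹ =
        α (β x * (h * x * h⁻¹)⁻¹) * (α (h * x * h⁻¹) * (g * (h * x * h⁻¹) * g⁻¹)⁻¹) := by
      rw [MulAut.mul_apply, map_mul, map_inv]
      group
    rw [h3]
    exact K.mul_mem h2 h1
  inv_mem' := by
    rintro α ⟨g, hg⟩
    refine ⟨g⁻¹, fun x => ?_⟩
    have hn : K.Normal := Subgroup.normal_of_characteristic K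
    have h1 := hg (α⁻¹ x)
    rw [MulAut.apply_inv_self] at h1
    have h2 := K.inv_mem (hn.conj_mem _ h1 g⁻¹)
    have h3 : (g⁻¹ * (x * (g * α⁻¹ x * g⁻¹)⁻¹) * g⁻¹⁻¹)⁻¹ = α⁻¹ x * (g⁻¹ * x * g⁻¹⁻¹)⁻¹ := by
      group
    rwa [h3] at h2

lemma mem_InnGroup {α : MulAut G} : α ∈ InnGroup K hK ↔ InnMod K α := Iff.rfl

lemma conj_mem_InnGroup (g : G) : MulAut.conj g ∈ InnGroup K hK :=
  ⟨g, fun x => by rw [MulAut.conj_apply, mul_inv_cancel]; exact K.one_mem⟩

lemma InnGroup_normal : (InnGroup K hK).Normal := by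
  constructor
  rintro α ⟨g, hg⟩ β
  refine ⟨β g, fun x => ?_⟩
  have h1 : β (α (β⁻¹ x) * (g * β⁻¹ x * g⁻¹)⁻¹) ∈ K := by
    rw [← map_char K hK β]
    exact ⟨_, hg (β⁻¹ x), rfl⟩
  rw [map_mul, map_inv, map_mul, map_mul, map_inv, MulAut.apply_inv_self] at h1
  rw [MulAut.mul_apply, MulAut.mul_apply]
  exact h1

/-- the action on the quotient by a characteristic subgroup -/
noncomputable def quoAut (α : MulAut G) :
    letI := Subgroup.normal_of_characteristic K
    MulAut (G ⧸ K) :=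
  letI := Subgroup.normal_of_characteristic K
  QuotientGroup.congr K K α (map_char K hK α)

lemma InnGroup_finiteIndex [K.FiniteIndex] : (InnGroup K hK).FiniteIndex := by
  have hn : K.Normal := Subgroup.normal_of_characteristic K
  let ρ : MulAut G →* MulAut (G ⧸ K) :=
    { toFun := fun α => QuotientGroup.congr K K α (map_char K hK α)
      map_one' := by
        ext x
        obtain ⟨x, rfl⟩ := QuotientGroup.mk_surjective x
        rfl
      map_mul' := fun α β => by
        ext x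
        obtain ⟨x, rfl⟩ := QuotientGroup.mk_surjective x
        rfl }
  have h1 : Finite (MulAut (G ⧸ K)) := by
    have : Finite (G ⧸ K) := Subgroup.finite_quotient_of_finiteIndex
    exact Finite.of_injective (fun e : MulAut (G ⧸ K) => (e : G ⧸ K → G ⧸ K))
      (fun a b h => MulEquiv.ext (congrFun h))
  have h2 : ρ.ker.FiniteIndex := Subgroup.finiteIndex_ker ρ
  refine Subgroup.finiteIndex_of_le (H := ρ.ker) (K := InnGroup K hK) ?_
  intro α hα
  refine ⟨1, fun x => ?_⟩
  have h3 : ρ α (x : G ⧸ K) = (x : G ⧸ K) := by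
    rw [MonoidHom.mem_ker.1 hα]
    rfl
  have h4 : ((α x : G) : G ⧸ K) = (x : G ⧸ K) := h3
  have h5 := QuotientGroup.eq.1 h4
  have h6 := K.inv_mem (hn.conj_mem _ h5 (α x))
  have h7 : (α x * ((α x)⁻¹ * x) * (α x)⁻¹)⁻¹ = α x * (1 * x * 1⁻¹)⁻¹ := by group
  rwa [h7] at h6

end Pool.Agent.V5helper35.CA
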