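import Pool.Agent.V5helper35.CA.NC

/-!
# Project CA: statements of the jobs on the Magnus expansion and on abstract groups

`NC R n` (file `NC.lean`): noncommutative power series `List (Fin n) → R`, a ring; `mag R w` the Magnus
expansion of `w ∈ F_n`, `mag R (of i) = 1 + X i`; `Eqd c f g`: equal coefficients of all words of length
`≤ c`; `Eqd.mul`, `mul_top_left`, `mul_top_right`, `X_mul_cons`, `mul_X_append`, `exists_inv`, `mag_mul_single`, `map_mag`.
-/

set_option autoImplicit false

namespace Pool.Agent.V5helper35.CA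

open NC

/-- `α` acts modulo degree `> c` as the conjugation by the series `h`. -/
def IsCj (R : Type) [CommRing R] {n : ℕ} (c : ℕ) (α : MulAut (FreeGroup (Fin n))) (h : NC R n) : Prop :=
  h [] = 1 ∧ ∀ w : FreeGroup (Fin n), Eqd c (mag R (α w) * h) (h * mag R w)

lemma IsCj.mul {R : Type} [CommRing R] {n c : ℕ} {α β : MulAut (FreeGroup (Fin n))} {h k : NC R n}
    (hα : IsCj R c α h) (hβ : IsCj R c β k) : IsCj R c (α * β) (h * k) := by
  refine ⟨by rw [mul_nil, hα.1, hβ.1, one_mul], fun w => ?_⟩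
  have h1 := Eqd.mul (hα.2 (β w)) (Eqd.refl c k)
  have h2 := Eqd.mul (Eqd.refl c h) (hβ.2 w)
  rw [mul_assoc, mul_assoc] at h1
  rw [← mul_assoc, ← mul_assoc] at h2
  rw [MulAut.mul_apply]
  rw [← mul_assoc] at h1
  rw [← mul_assoc, mul_assoc h k]
  rw [← mul_assoc h] at h1
  rw [mul_assoc h] at h2
  refine Eqd.trans ?_ (Eqd.trans (Eqd.of_eq (mul_assoc h (mag R (β w)) k)) ?_)
  · exact h1
  · rw [mul_assoc h k] at h2
    exact h2

lemma IsCj.inv {R : Type} [CommRing R] {n c : ℕ} {α : MulAut (FreeGroup (Fin n))} {h : NC R n}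
    (hα : IsCj R c α h) : ∃ k, IsCj R c α⁻¹ k := by
  obtain ⟨k, hk0, hk1, hk2⟩ := exists_inv c hα.1
  refine ⟨k, hk0, fun w => ?_⟩
  have h1 := hα.2 (α⁻¹ w)
  rw [MulAut.apply_inv_self] at h1
  -- `mag w * h = h * mag (α⁻¹ w)`
  have h2 := Eqd.mul (Eqd.mul (Eqd.refl c k) h1) (Eqd.refl c k)
  have h3 : k * (mag R w * h) * k = k * mag R w * (h * k) := by simp only [mul_assoc]
  have h4 : k * (h * mag R (α⁻¹ w)) * k = k * h * (mag R (α⁻¹ w) * k) := by simp only [mul_assoc]
  rw [h3, h4] at h2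
  have h5 := Eqd.mul (Eqd.refl c (k * mag R w)) hk1
  have h6 := Eqd.mul hk2 (Eqd.refl c (mag R (α⁻¹ w) * k))
  rw [mul_one] at h5
  rw [one_mul] at h6
  exact h6.symm.trans (h2.symm.trans h5)

/-- The group of the automorphisms which act modulo degree `> c` as a conjugation. -/
def J (n c : ℕ) : Subgroup (MulAut (FreeGroup (Fin n))) where
  carrier := {α | ∃ h, IsCj ℤ c α h}
  mul_mem' := fun ⟨_, hα⟩ ⟨_, hβ⟩ => ⟨_, hα.mul hβ⟩
  one_mem' := ⟨1, rfl, fun w => by rw [MulAut.one_apply, mul_one, one_mul]; exact Eqd.refl _ _⟩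
  inv_mem' := fun ⟨_, hα⟩ => hα.inv

lemma mem_J {n c : ℕ} {α : MulAut (FreeGroup (Fin n))} : α ∈ J n c ↔ ∃ h, IsCj ℤ c α h := Iff.rfl

lemma J_anti (n : ℕ) {c d : ℕ} (h : c ≤ d) : J n d ≤ J n c :=
  fun _ ⟨k, hk⟩ => ⟨k, hk.1, fun w => (hk.2 w).mono h⟩

lemma conj_mem_J (n c : ℕ) (g : FreeGroup (Fin n)) : MulAut.conj g ∈ J n c := by
  refine ⟨mag ℤ g, mag_nil g, fun w => ?_⟩
  rw [MulAut.conj_apply, ← map_mul, ← map_mul, inv_mul_cancel_right]
  exact Eqd.refl _ _

/-- `α` acts on `F_n / K` as an inner automorphism. -/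
def InnerMod {n : ℕ} (K : Subgroup (FreeGroup (Fin n))) (α : MulAut (FreeGroup (Fin n))) : Prop :=
  ∃ g : FreeGroup (Fin n), ∀ x : FreeGroup (Fin n), α x * (g * x * g⁻¹)⁻¹ ∈ K

/-- the product of the syllables `x_i ^ e` -/
def syl {n : ℕ} (s : List (Fin n × ℤ)) : FreeGroup (Fin n) :=
  (s.map fun p => FreeGroup.of p.1 ^ p.2).prod

/-- **JOB PAT** (70 lines): `theorem t_PAT : S_PAT`.  In words: the coefficient of a word `v` without equal
neighbours in the Magnus expansion of a product of at most `|v|` syllables.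

Proof.  (a) For `e : ℤ` and `v` without equal neighbours, `mag (x_i ^ e) v` is `1` for `v = []`, `e` for `v = [i]`, `0` otherwise: by
induction on `e` (or: true for `x_i`, `x_i⁻¹` and stable under products, since in `(f * g) v = ∑ f (take) g (drop)` all
sub-words have no equal neighbours).  (b) Induction on `s`: for `s = (i, e) :: s'`, with the formula `mul_cons` twice,
`(mag (x_i ^ e) * mag (syl s')) (j :: v') = mag (syl s') (j :: v') + (der j (mag (x_i ^ e)) * mag (syl s')) v'`, where the first term is `0`, as the length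
of `j :: v'` is larger than that of `s'`, and in the second only the term `mag (x_i ^ e) [j] * mag (syl s') v'` remains.
(The empty `s`: `mag 1 = 1`.) -/
def S_PAT : Prop :=
  ∀ (n : ℕ) (s : List (Fin n × ℤ)) (v : List (Fin n)), s.length ≤ v.length → v.IsChain (· ≠ ·) →
    mag ℤ (syl s) v = if v = s.map Prod.fst then (s.map Prod.snd).prod else 0

/-- A word whose Magnus expansion is conjugate to `1 + X i` is a conjugate of `x_i`. -/
def S_INNA : Prop :=
  ∀ (n : ℕ) (i : Fin n) (w : FreeGroup (Fin n)),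
    (∀ c : ℕ, ∃ h : NC ℤ n, h [] = 1 ∧ Eqd c (mag ℤ w * h) (h * mag ℤ (FreeGroup.of i))) →
    ∃ g : FreeGroup (Fin n), w = g * FreeGroup.of i * g⁻¹

/-- **JOB INN1** (180 lines): `theorem t_INN1 : S_INN1`.

Proof.  For a word `v` put `cyc v f = ∑ r < |v|, f (v.rotate r)`.  (a) `cyc v (f * g) = cyc v (g * f)`: expand `(f * g) u = ∑ k ≤ |u|, f (u.take k) * g (u.drop k)`
and use the bijection `(r, k) ↦ (r + k mod |v|, |v| - k)`.  So `cyc v (mag w) = cyc v (1 + X i)` for all `v`: for `c = |v|` and `k` the truncated inverse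
of `h` (`exists_inv`), `mag w ≡ h (1 + X i) k`, and `cyc v (h (1 + X i) k) = cyc v (k h (1 + X i))`.  Also `cyc v (mag (g w g⁻¹)) = cyc v (mag w)`.
(b) Choose `g` and `s` with `g w g⁻¹ = syl s` and `s.length` minimal.  Then no exponent is zero (remove the syllable), neighbouring letters
are different (merge), and if `s.length ≥ 2` the first and the last letter are different (conjugate by the first syllable and merge).
Let `v = s.map Prod.fst`.  If `s.length ≥ 2` then all rotations of `v` have no equal neighbours, so by `S_PAT`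
`cyc v (mag (syl s))` is a positive multiple (the number of the `r` with `v.rotate r = v`, for instance `r = 0`) of the product of the exponents, not zero; but
`cyc v (1 + X i) = 0` as `|v| ≥ 2`.  If `s = []` then `w = 1` and `cyc [i]` gives `0 = 1`.  If `s = [(j, e)]` then `cyc [i]` gives
`j = i`, `e = 1`, so `g w g⁻¹ = x_i`. -/
def S_INN1 : Prop := S_PAT → S_INNA

/-- The intersection of the groups `J n c` consists of the inner automorphisms. -/
def S_INN : Prop :=
  ∀ n : ℕ, 2 ≤ n → ∀ α : MulAut (FreeGroup (Fin n)), (∀ c, α ∈ J n c) → ∃ g, α = MulAut.conj g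

/-- **JOB INN2** (180 lines): `theorem t_INN2 : S_INN2`.

Proof.  By `S_INNA` every `α x_i` is a conjugate of `x_i`.  After multiplication of `α` by an inner automorphism (`conj_mem_J`) `α x_0 = x_0` and
`α x_j = k_j x_j k_j⁻¹` for `j ≠ 0`.  (1) If `mag x_i * f ≡ f * mag x_i` modulo degree `> c` then `f u = 0` for every word `u` of length
`≤ c - 1` with a letter `≠ i`: `(X i * f) (i :: u) = f u`, `(f * X i) (i :: u' ++ [l]) = f (i :: u')` if `l = i` and `0` if `l ≠ i`; so `f u = 0` if the last letter of `u` is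
not `i`, and `f (u' ++ [i]) = f (i :: u')`.  (2) For each `j ≠ 0` write `k_j⁻¹ = syl (s j) * x_0 ^ (- a j)` with the length of `s j` minimal: no
exponent is zero, neighbouring letters are different, the last letter is not `0`.  Let `c` be larger than all `(s j).length + 2` and
`IsCj ℤ c α h`.  `h` commutes with `mag x_0` (mod degree `> c`), and `κ j = mag (k_j⁻¹) * h` commutes with `mag x_j`.  Let `v = (s j).map Prod.fst`,
`h' = mag (x_0 ^ (- a j)) * h`, which also commutes with `mag x_0`: `κ j v = (mag (syl (s j)) * h') v = mag (syl (s j)) v` (in the sum over `v = v₁ ++ v₂` the terms with `v₂ ≠ []` vanish by (1), as the last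
letter of `v` is not `0`; `h' [] = 1`), which is not zero by `S_PAT`.  By (1) for `κ j` all letters of `v` are `j`, so `s j = []` or `s j = [(j, b)]`.
So `k_j⁻¹ = x_j ^ b * x_0 ^ (- a j)` and `α x_j = x_0 ^ (a j) x_j x_0 ^ (- a j)`.  (3) `0 = κ j [0] = mag (k_j⁻¹) [0] + h [0] = - a j + h [0]` (`mag_mul_single`).  So all `a j`
are equal to `a = h [0]`, and `α = conj (x_0 ^ a)`. -/
def S_INN2 : Prop := S_PAT → S_INNA → S_INN

/-- **JOB UNQ** (70 lines): `theorem t_UNQ : S_UNQ`.

Proof.  Let `u = h - h'`: `mag (α x_i) * u ≡ u * mag x_i` modulo degree `> c`, and `u [] = 0`.  Induction on `d ≤ c - 1`: `u` vanishes on the words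
of length `≤ d`.  Let `d ≥ 1`, `Eqd (d - 1) u 0`, `v` a word of length `d`.  In degree `d + 1 ≤ c` the relation says
`(X i * u) v' = (u * X i) v'` for `|v'| = d + 1` (the coefficients of `mag (α x_i)` in degrees `0` and `1` are those of `1 + X i`).  Take
`v' = v ++ [i]` with `i` different from the first letter of `v` (`n ≥ 2`): the left side is `0`, the right side is `u v`. -/
def S_UNQ : Prop :=
  ∀ (R : Type) [CommRing R] (n : ℕ), 2 ≤ n → ∀ (c : ℕ) (α : MulAut (FreeGroup (Fin n))) (h h' : NC R n),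
    (∀ i k, mag R (α (FreeGroup.of i)) [k] = if k = i then 1 else 0) → h [] = h' [] →
    (∀ i, Eqd c (mag R (α (FreeGroup.of i)) * h) (h * mag R (FreeGroup.of i))) →
    (∀ i, Eqd c (mag R (α (FreeGroup.of i)) * h') (h' * mag R (FreeGroup.of i))) →
    Eqd (c - 1) h h'

/-- **JOB CORE** (60 lines): `theorem t_CORE : S_CORE`.

Proof.  `K₀ = {w | Eqd c (mag (ZMod m) w) 1}` is a normal subgroup of finite index: the truncation of `mag w` to words of length `≤ c`
determines the coset (`Eqd.mul`) and there are finitely many truncations (`ZMod m` and the set of these words are finite).  Let `G = F / K₀`, a finite group.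
There are finitely many homomorphisms `F → G`; let `K` be the intersection of their kernels. -/
def S_CORE : Prop :=
  ∀ n c m : ℕ, 0 < m → ∃ K : Subgroup (FreeGroup (Fin n)), K.Characteristic ∧ K.FiniteIndex ∧
    ∀ w ∈ K, Eqd c (mag (ZMod m) w) 1

/-- The homomorphism on `J n c` with kernel `J n (c + 1)`. -/
def S_JOH : Prop :=
  ∀ n c : ℕ, 2 ≤ n → 1 ≤ c → ∃ (s : ℕ) (f : ↥(J n c) →* Multiplicative (Fin s → ℤ)),
    (∀ α : ↥(J n c), f α = 1 ↔ α.1 ∈ J n (c + 1)) ∧
    ∀ m : ℕ, 0 < m → ∃ K : Subgroup (FreeGroup (Fin n)), K.Characteristic ∧ K.FiniteIndex ∧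
      ∀ α : ↥(J n c), InnerMod K α.1 → ∀ j, (m : ℤ) ∣ Multiplicative.toAdd (f α) j

/-- **JOB JOH1** (250 lines): `theorem t_JOH1 : S_JOH1`.

Proof.  Let `W` be the finite set of the words of length `c + 1`.  Let `IsCj R c α h`, `c ≥ 1`; then `mag (α x_i) [k] = δ_ik` (degree 1, `mag_mul_single`-like:
`mul_single`), so `mag (α w) [k] = mag w [k]`.  (i) Put `δ_h w = (mag (α w) * h - h * mag w)` restricted to `W`.  `δ_h (w w') = δ_h w + δ_h w'` by
`mag (α w) (mag (α w') h - h mag w') + (mag (α w) h - h mag w) mag w'` and `mul_top_left/right`.  So `δ_h w = ∑ k, mag w [k] • δ_h x_k`; in particular `δ_h (β w) = δ_h w` if `β ∈ J n 1`.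
(ii) If also `IsCj R c α h'` then `h' - h = u` vanishes in degrees `≤ c - 1` (`S_UNQ`) and `δ_h' x_i = δ_h x_i + ad_i u`, `ad_i u = (X i * u - u * X i)` on `W`.
(iii) For a word `v` of length `c` let `ι v` be a letter different from its first letter.  For `δ = (δ_i)_i`, `δ_i : W → R`, put `u_δ v = - δ_(ι v) (v ++ [ι v])` (`|v| = c`, zero
elsewhere) and `π δ = (δ_i - ad_i u_δ)_i`, additive in `δ`.  If `δ_i = ad_i u` for all `i` then `u_δ = u` in degree `c` (`(X i * u) (v ++ [i]) = 0`, `(u * X i) (v ++ [i]) = u v` for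
`i = ι v`), so `π δ = 0`.  Define `f α = π (δ_h)` for any `h` with `IsCj ℤ c α h`; by (ii) it does not depend on `h`.
(iv) `f` is a homomorphism: `δ_(h k) (α β, w) = δ_h (α, β w) + δ_k (β, w)` (`[mag (α β w) h - h mag (β w)] k + h [mag (β w) k - k mag w]`, top degree), and (i).
(v) `f α = 0` iff `α ∈ J n (c + 1)`: if `f α = 0` replace `h` by `h' = h - u_δ`: then `mag (α x_i) h' ≡ h' mag x_i` modulo degree `> c + 1` for all `i`, hence for all `w` (the set
of the `w` with this property is a subgroup).  Conversely for `IsCj ℤ (c + 1) α h` we have `δ_h = 0`.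
(vi) Let `m > 0`, `K` from `S_CORE` for `c + 1`, `m`.  If `InnerMod K α` with `g` then over `ZMod m` (`map_mag`) `mag (α x) * mag g ≡ mag g * mag x` modulo degree `> c + 1`, and the
reduction of `h` is as in (ii) for degree `c`; so (`S_UNQ` over `ZMod m`) `u = h - mag g` vanishes in degrees `≤ c - 1` and `δ_h x_i = ad_i u` modulo `m`, so `π δ_h = 0` modulo `m`.
(Index set: `Fin n × W` with `W` a `Fintype`, transported to `Fin s`; `W` could be `Fin (c + 1) → Fin n` with `List.ofFn`.) -/
def S_JOH1 : Prop := S_UNQ → S_CORE → S_JOH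

/-- **JOB TERM** (80 lines): `theorem t_TERM : S_TERM`.

Proof.  The ranks (`Module.finrank ℤ` of the subgroups, written additively) decrease, so they are constant from some `c` on; `H c / H (c + 1)` is torsion-free and of rank `0`, so
`H c = H (c + 1) = ...`, which is the intersection. -/
def S_TERM : Prop :=
  ∀ (Q : Type) [CommGroup Q] [Group.FG Q] (H : ℕ → Subgroup Q), Antitone H →
    (∀ (c : ℕ) (a : Q) (k : ℕ), 0 < k → a ∈ H c → a ^ k ∈ H (c + 1) → a ∈ H (c + 1)) →
    (⨅ c, H c = ⊥) → ∃ c, H c = ⊥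

/-- **JOB LAT** (50 lines): `theorem t_LAT : S_LAT`.

Proof.  Let `e > 0` kill the (finite) torsion subgroup of `ℤ ^ s / Λ`, `N = m e`.  If `v = N z ∈ Λ` then `z` is torsion modulo `Λ`, so `u = e z ∈ Λ`, `v = m u`. -/
def S_LAT : Prop :=
  ∀ (s : ℕ) (L : AddSubgroup (Fin s → ℤ)) (m : ℕ), 0 < m → ∃ N : ℕ, 0 < N ∧
    ∀ v ∈ L, (∀ j, (N : ℤ) ∣ v j) → ∃ u ∈ L, v = m • u

end Pool.Agent.V5helper35.CA
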