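import Mathlib

/-!
# Project CA: from abelian to virtually abelian subgroups
-/

set_option autoImplicit false

namespace Pool.Agent.V5helper35.CA

/-- **JOB VIRT** (100 lines): `theorem t_VIRT : S_VIRT`.

Proof.  (0) For `1 ≠ g ∈ G` there is `N ∈ 𝒩` with `g ∉ N`: apply the hypothesis to the cyclic group `⟨g⟩` and `m = 2` if `g` has infinite
order (`g = (g ^ k) ^ 2` is impossible), `m` = the order of `g` if it is finite (`b ^ m = 1` for `b ∈ ⟨g⟩`).
(1) Let `A₁` be the normal core in `A` of `A₀ ⊓ B` (`((A₀ ⊓ B).subgroupOf A).normalCore.map A.subtype`): normal in `A`, of finite index in `A`, contained in `A₀`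
and in `B`, so commutative, and finitely generated (a subgroup of a finitely generated commutative group).  Let `m > 0` be the index of `A₁` in `A`; `x ^ m ∈ A₁` for `x ∈ A`.
(2) For every `a ∈ A`, `a ∉ A₁`, there is `N ∈ 𝒩` which contains no element `a * x`, `x ∈ A₁`.  If `a` commutes with all elements of `A₁`, apply the
hypothesis to the finitely generated commutative group `C` generated by `A₁` and `a`, and to `m`: an element `a x ∈ N` is `b ^ m`, `b ∈ C ≤ A`, so it is in `A₁`, and `a ∈ A₁`, a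
contradiction.  If `a b ≠ b a`, `b ∈ A₁`, take `N` with `a b a⁻¹ b⁻¹ ∉ N` by (0): if `y = a x ∈ N` then `y b y⁻¹ b⁻¹ ∈ N` (`N` is normal), but this is
`a b a⁻¹ b⁻¹`, as `x` commutes with `b`.
(3) Take `N ∈ 𝒩` contained in the `N`'s of (2) for a finite set of representatives `a` of the nontrivial cosets of `A₁` in `A`: `A ⊓ N ≤ A₁ ≤ B`. -/
def S_VIRT : Prop :=
  ∀ (G : Type) [Group G] (𝒩 : Set (Subgroup G)), (∀ N ∈ 𝒩, N.Normal) → 𝒩.Nonempty →
    (∀ N ∈ 𝒩, ∀ N' ∈ 𝒩, ∃ N'' ∈ 𝒩, N'' ≤ N ⊓ N') →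
    (∀ A₀ : Subgroup G, A₀.FG → (∀ a ∈ A₀, ∀ b ∈ A₀, a * b = b * a) → ∀ m : ℕ, 0 < m →
      ∃ N ∈ 𝒩, ∀ a ∈ A₀, a ∈ N → ∃ b ∈ A₀, a = b ^ m) →
    ∀ A A₀ B : Subgroup G, A₀ ≤ A → A₀.relIndex A ≠ 0 → A₀.FG →
      (∀ a ∈ A₀, ∀ b ∈ A₀, a * b = b * a) → B ≤ A → B.relIndex A ≠ 0 → ∃ N ∈ 𝒩, A ⊓ N ≤ B

end Pool.Agent.V5helper35.CA
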