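import Pool.Agent.V5helper35.CA.Stm1
import Pool.Agent.V5helper35.CA.Stm2
import Pool.Agent.V5helper35.CA.Stm3
import Pool.Agent.V5helper35.CA.Out

/-!
# Project CA: the abelian subgroups of `Out (F_n)`
-/

set_option autoImplicit false

namespace Pool.Agent.V5helper35.CA

open NC

/-! ### gluing -/

/-- the elements of `H` in deep members of the family are `m`-th powers in `H` -/
def Good {Q : Type} [CommGroup Q] (𝒩 : Set (Subgroup Q)) (H : Subgroup Q) : Prop :=
  ∀ m : ℕ, 0 < m → ∃ N ∈ 𝒩, ∀ a ∈ H, a ∈ N → ∃ b ∈ H, a = b ^ m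

lemma Good.glue {Q : Type} [CommGroup Q] {𝒩 : Set (Subgroup Q)}
    (hdir : ∀ N ∈ 𝒩, ∀ N' ∈ 𝒩, ∃ N'' ∈ 𝒩, N'' ≤ N ⊓ N')
    (hpow : ∀ N ∈ 𝒩, ∃ k : ℕ, 0 < k ∧ ∀ a : Q, a ^ k ∈ N) {H H' : Subgroup Q} (hle : H' ≤ H)
    (h' : Good 𝒩 H')
    (h : ∀ m : ℕ, 0 < m → ∃ N ∈ 𝒩, ∀ a ∈ H, a ∈ N → ∃ b ∈ H, a * (b ^ m)⁻¹ ∈ H') :
    Good 𝒩 H := by
  intro m hm
  obtain ⟨N₁, hN₁, h1⟩ := h' m hm
  obtain ⟨k, hk, hk'⟩ := hpow N₁ hN₁
  obtain ⟨N₂, hN₂, h2⟩ := h (m * k) (Nat.mul_pos hm hk)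
  obtain ⟨N, hN, hle'⟩ := hdir N₁ hN₁ N₂ hN₂
  refine ⟨N, hN, fun a ha haN => ?_⟩
  have haN1 : a ∈ N₁ := (hle' haN).1
  obtain ⟨b, hb, hb'⟩ := h2 a ha (hle' haN).2
  have h3 : a * (b ^ (m * k))⁻¹ ∈ N₁ := by
    refine N₁.mul_mem haN1 (N₁.inv_mem ?_)
    rw [pow_mul]
    exact hk' _
  obtain ⟨d, hd, hd'⟩ := h1 _ hb' h3
  refine ⟨b ^ k * d, H.mul_mem (H.pow_mem hb k) (hle hd), ?_⟩
  rw [mul_pow, ← hd', ← pow_mul, mul_comm k m, mul_comm a, mul_inv_cancel_left]

/-! ### `Out (F_n)` -/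

/-- the group of the inner automorphisms of the free group -/
abbrev Inn (n : ℕ) : Subgroup (MulAut (FreeGroup (Fin n))) := (MulAut.conj (G := FreeGroup (Fin n))).range

/-- the outer automorphism group of the free group of rank `n` -/
abbrev Out (n : ℕ) : Type := MulAut (FreeGroup (Fin n)) ⧸ Inn n

/-- the congruence subgroup of `Out (F_n)` of `K` -/
def NK (n : ℕ) (K : Subgroup (FreeGroup (Fin n))) (hK : K.Characteristic) : Subgroup (Out n) :=
  (InnGroup K hK).map (QuotientGroup.mk' (Inn n))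

lemma mem_map_iff {n : ℕ} {S : Subgroup (MulAut (FreeGroup (Fin n)))} (hS : Inn n ≤ S)
    (α : MulAut (FreeGroup (Fin n))) : (α : Out n) ∈ S.map (QuotientGroup.mk' (Inn n)) ↔ α ∈ S := by
  constructor
  · rintro ⟨β, hβ, h⟩
    have h1 : β⁻¹ * α ∈ Inn n := QuotientGroup.eq.1 h
    have h2 := S.mul_mem hβ (hS h1)
    rwa [mul_inv_cancel_left] at h2
  · intro h
    exact ⟨α, h, rfl⟩

lemma inn_le_InnGroup (n : ℕ) (K : Subgroup (FreeGroup (Fin n))) (hK : K.Characteristic) :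
    Inn n ≤ InnGroup K hK := by
  rintro _ ⟨g, rfl⟩
  exact conj_mem_InnGroup K hK g

lemma inn_le_J (n c : ℕ) : Inn n ≤ J n c := by
  rintro _ ⟨g, rfl⟩
  exact conj_mem_J n c g

lemma mem_NK {n : ℕ} {K : Subgroup (FreeGroup (Fin n))} {hK : K.Characteristic}
    {α : MulAut (FreeGroup (Fin n))} : (α : Out n) ∈ NK n K hK ↔ InnerMod K α :=
  mem_map_iff (inn_le_InnGroup n K hK) α

lemma NK_normal (n : ℕ) (K : Subgroup (FreeGroup (Fin n))) (hK : K.Characteristic) :
    (NK n K hK).Normal :=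
  (InnGroup_normal K hK).map _ (QuotientGroup.mk'_surjective _)

lemma NK_finiteIndex (n : ℕ) (K : Subgroup (FreeGroup (Fin n))) (hK : K.Characteristic)
    (hf : K.FiniteIndex) : (NK n K hK).FiniteIndex := by
  have h1 := InnGroup_finiteIndex K hK
  refine ⟨fun h0 => h1.index_ne_zero ?_⟩
  have h2 := Subgroup.index_map_dvd (f := QuotientGroup.mk' (Inn n)) (InnGroup K hK)
    (QuotientGroup.mk'_surjective _)
  have h3 : ((InnGroup K hK).map (QuotientGroup.mk' (Inn n))).index = 0 := h0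
  rw [h3] at h2
  exact Nat.eq_zero_of_zero_dvd h2

lemma inf_char {G : Type} [Group G] {K K' : Subgroup G} (h : K.Characteristic)
    (h' : K'.Characteristic) : (K ⊓ K').Characteristic := by
  rw [Subgroup.characteristic_iff_comap_eq] at *
  intro φ
  rw [Subgroup.comap_inf, h, h']

lemma NK_anti {n : ℕ} {K K' : Subgroup (FreeGroup (Fin n))} {hK : K.Characteristic}
    {hK' : K'.Characteristic} (h : K ≤ K') : NK n K hK ≤ NK n K' hK' := by
  intro φ hφ
  obtain ⟨α, rfl⟩ := QuotientGroup.mk_surjective φ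
  obtain ⟨g, hg⟩ := mem_NK.1 hφ
  exact mem_NK.2 ⟨g, fun x => h (hg x)⟩

/-! ### the action on the abelianization -/

/-- the coefficient of a letter, a homomorphism -/
def dg (n : ℕ) (j : Fin n) : FreeGroup (Fin n) →* Multiplicative ℤ where
  toFun w := Multiplicative.ofAdd (mag ℤ w [j])
  map_one' := by rw [map_one]; rfl
  map_mul' u v := by rw [mag_mul_single]; rfl

lemma mag_aut {n : ℕ} (α : MulAut (FreeGroup (Fin n))) (w : FreeGroup (Fin n)) (j : Fin n) :
    mag ℤ (α w) [j] = ∑ k, mag ℤ (α (FreeGroup.of k)) [j] * mag ℤ w [k] := by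
  induction w using FreeGroup.induction_on with
  | C1 =>
    rw [map_one, map_one]
    simp
  | of i =>
    simp only [mag_of_single]
    rw [Finset.sum_eq_single i]
    · simp
    · intro k _ hk
      rw [if_neg hk, mul_zero]
    · intro h
      exact absurd (Finset.mem_univ _) h
  | inv_of i h =>
    have h1 : ∀ (v : FreeGroup (Fin n)) (k : Fin n), mag ℤ v⁻¹ [k] = - mag ℤ v [k] := by
      intro v k
      have h2 := mag_mul_single (R := ℤ) v v⁻¹ k
      rw [mul_inv_cancel, map_one, one_cons] at h2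
      linarith
    rw [map_inv, h1, h, ← Finset.sum_neg_distrib]
    refine Finset.sum_congr rfl fun k _ => ?_
    rw [h1, mul_neg]
  | mul u v hu hv =>
    rw [map_mul, mag_mul_single, hu, hv, ← Finset.sum_add_distrib]
    refine Finset.sum_congr rfl fun k _ => ?_
    rw [mag_mul_single, mul_add]

/-- the action on the abelianization -/
def Th0 (n : ℕ) : MulAut (FreeGroup (Fin n)) →* Matrix (Fin n) (Fin n) ℤ where
  toFun α := Matrix.of fun j i => mag ℤ (α (FreeGroup.of i)) [j]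
  map_one' := by
    ext j i
    rw [Matrix.of_apply, MulAut.one_apply, mag_of_single, Matrix.one_apply]
  map_mul' α β := by
    ext j i
    rw [Matrix.of_apply, MulAut.mul_apply, mag_aut, Matrix.mul_apply]
    rfl

lemma Th0_inn (n : ℕ) : Inn n ≤ (Th0 n).ker := by
  rintro _ ⟨g, rfl⟩
  rw [MonoidHom.mem_ker]
  ext j i
  have h1 : mag ℤ g⁻¹ [j] = - mag ℤ g [j] := by
    have h2 := mag_mul_single (R := ℤ) g g⁻¹ j
    rw [mul_inv_cancel, map_one, one_cons] at h2
    linarith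
  change mag ℤ (MulAut.conj g (FreeGroup.of i)) [j] = _
  rw [MulAut.conj_apply, mag_mul_single, mag_mul_single, mag_of_single, h1, Matrix.one_apply]
  ring

/-- the action of `Out (F_n)` on the abelianization -/
def Th (n : ℕ) : Out n →* Matrix (Fin n) (Fin n) ℤ := QuotientGroup.lift (Inn n) (Th0 n) (Th0_inn n)

lemma Th_mk {n : ℕ} (α : MulAut (FreeGroup (Fin n))) (i j : Fin n) :
    Th n (α : Out n) j i = mag ℤ (α (FreeGroup.of i)) [j] := rfl

lemma mem_J_one {n : ℕ} {α : MulAut (FreeGroup (Fin n))} (h : Th n (α : Out n) = 1) : α ∈ J n 1 := by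
  refine ⟨1, rfl, fun w => ?_⟩
  rw [mul_one, one_mul]
  intro v hv
  rcases v with _ | ⟨j, v⟩
  · rw [mag_nil, mag_nil]
  · have hv0 : v = [] := List.eq_nil_of_length_eq_zero (by rw [List.length_cons] at hv; omega)
    subst hv0
    rw [mag_aut]
    have h1 : ∀ k, mag ℤ (α (FreeGroup.of k)) [j] = if j = k then 1 else 0 := by
      intro k
      rw [← Th_mk, h, Matrix.one_apply]
    simp only [h1, ite_mul, one_mul, zero_mul]
    rw [Finset.sum_ite_eq]
    simp

end Pool.Agent.V5helper35.CA
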