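import Pool.Agent.V5helper35.CA.Fin1

/-!
# Project CA: the elements of an abelian subgroup which are trivial modulo a deep `K` are `m`-th powers
-/

set_option autoImplicit false

namespace Pool.Agent.V5helper35.CA

open NC

section Ab

variable {n : ℕ} {Q : Type} [CommGroup Q] (ι : Q →* Out n)

/-- the family of the congruence subgroups of `Q` -/
def Fam (ι : Q →* Out n) : Set (Subgroup Q) :=
  {N | ∃ (K : Subgroup (FreeGroup (Fin n))) (hK : K.Characteristic), K.FiniteIndex ∧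
    N = (NK n K hK).comap ι}

lemma Fam_dir : ∀ N ∈ Fam ι, ∀ N' ∈ Fam ι, ∃ N'' ∈ Fam ι, N'' ≤ N ⊓ N' := by
  rintro _ ⟨K, hK, hf, rfl⟩ _ ⟨K', hK', hf', rfl⟩
  refine ⟨_, ⟨K ⊓ K', inf_char hK hK', inferInstance, rfl⟩, ?_⟩
  rw [← Subgroup.comap_inf]
  exact Subgroup.comap_mono (le_inf (NK_anti inf_le_left) (NK_anti inf_le_right))

lemma Fam_pow : ∀ N ∈ Fam ι, ∃ k : ℕ, 0 < k ∧ ∀ a : Q, a ^ k ∈ N := by
  rintro _ ⟨K, hK, hf, rfl⟩
  have h1 := NK_finiteIndex n K hK hf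
  have h2 := NK_normal n K hK
  refine ⟨(NK n K hK).index, Nat.pos_of_ne_zero h1.index_ne_zero, fun a => ?_⟩
  rw [Subgroup.mem_comap, map_pow]
  exact Subgroup.pow_index_mem _ _

/-- the chain of subgroups of `Q` -/
def HJ (c : ℕ) : Subgroup Q := ((J n (c + 1)).map (QuotientGroup.mk' (Inn n))).comap ι

lemma mem_HJ {c : ℕ} {a : Q} {α : MulAut (FreeGroup (Fin n))} (h : (α : Out n) = ι a) :
    a ∈ HJ ι c ↔ α ∈ J n (c + 1) := by
  rw [HJ, Subgroup.mem_comap, ← h]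
  exact mem_map_iff (inn_le_J n (c + 1)) α

lemma exists_rep (a : Q) : ∃ α : MulAut (FreeGroup (Fin n)), (α : Out n) = ι a :=
  QuotientGroup.mk_surjective _

lemma HJ_anti : Antitone (HJ ι) := by
  intro c d hcd a ha
  obtain ⟨α, hα⟩ := exists_rep ι a
  rw [mem_HJ ι hα] at ha ⊢
  exact J_anti n (by omega) ha

variable [Group.FG Q]

lemma HJ_tf (hn : 2 ≤ n) (hJOH : S_JOH) (c : ℕ) (a : Q) (k : ℕ) (hk : 0 < k) (ha : a ∈ HJ ι c)
    (hak : a ^ k ∈ HJ ι (c + 1)) : a ∈ HJ ι (c + 1) := by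
  obtain ⟨s, f, hf, -⟩ := hJOH n (c + 1) hn (by omega)
  obtain ⟨α, hα⟩ := exists_rep ι a
  have hαk : ((α ^ k : MulAut (FreeGroup (Fin n))) : Out n) = ι (a ^ k) := by
    rw [map_pow, ← hα]; rfl
  rw [mem_HJ ι hα] at ha ⊢
  rw [mem_HJ ι hαk] at hak
  have h1 : f (⟨α, ha⟩ ^ k) = 1 := (hf _).2 hak
  rw [map_pow] at h1
  have h2 : k • Multiplicative.toAdd (f ⟨α, ha⟩) = 0 := by
    have := congrArg Multiplicative.toAdd h1
    simpa using this
  have h3 : Multiplicative.toAdd (f ⟨α, ha⟩) = 0 := by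
    funext j
    have h4 := congrFun h2 j
    rw [Pi.smul_apply, Pi.zero_apply, nsmul_eq_mul, mul_eq_zero] at h4
    rcases h4 with h4 | h4
    · exact absurd (by exact_mod_cast h4) hk.ne'
    · exact h4
  exact (hf _).1 (by rw [← toAdd_eq_zero]; exact h3)

lemma HJ_step (hn : 2 ≤ n) (hJOH : S_JOH) (hLAT : S_LAT) (c : ℕ) (h : Good (Fam ι) (HJ ι (c + 1))) :
    Good (Fam ι) (HJ ι c) := by
  refine Good.glue (Fam_dir ι) (Fam_pow ι) (HJ_anti ι (Nat.le_succ c)) h ?_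
  intro m hm
  obtain ⟨s, f, hf, hfm⟩ := hJOH n (c + 1) hn (by omega)
  -- the values of `f` on the representatives of the elements of `HJ c`
  let L : AddSubgroup (Fin s → ℤ) :=
    { carrier := {v | ∃ (a : Q) (α : ↥(J n (c + 1))), ((α : MulAut (FreeGroup (Fin n))) : Out n) = ι a ∧
        Multiplicative.toAdd (f α) = v}
      zero_mem' := ⟨1, 1, by rw [map_one]; rfl, by rw [map_one]; rfl⟩
      add_mem' := by
        rintro _ _ ⟨a, α, h1, rfl⟩ ⟨b, β, h2, rfl⟩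
        exact ⟨a * b, α * β, by rw [map_mul, ← h1, ← h2]; rfl, by rw [map_mul]; rfl⟩
      neg_mem' := by
        rintro _ ⟨a, α, h1, rfl⟩
        exact ⟨a⁻¹, α⁻¹, by rw [map_inv, ← h1]; rfl, by rw [map_inv]; rfl⟩ }
  obtain ⟨N, hN, hL⟩ := hLAT s L m hm
  obtain ⟨K, hK, hKf, hKN⟩ := hfm N hN
  refine ⟨_, ⟨K, hK, hKf, rfl⟩, fun a ha haN => ?_⟩
  obtain ⟨α, hα⟩ := exists_rep ι a
  rw [mem_HJ ι hα] at ha
  rw [Subgroup.mem_comap, ← hα, mem_NK] at haN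
  obtain ⟨u, ⟨b, β, hβ, rfl⟩, hu⟩ := hL (Multiplicative.toAdd (f ⟨α, ha⟩)) ⟨a, ⟨α, ha⟩, hα, rfl⟩
    (hKN ⟨α, ha⟩ haN)
  refine ⟨b, (mem_HJ ι hβ).2 β.2, ?_⟩
  have h1 : f (⟨α, ha⟩ * (β ^ m)⁻¹) = 1 := by
    rw [map_mul, map_inv, map_pow]
    apply Multiplicative.toAdd.injective
    rw [toAdd_mul, toAdd_inv, toAdd_pow, hu, toAdd_one]
    exact add_neg_cancel _
  have h2 := (hf _).1 h1
  have h3 : ((α * (β.1 ^ m)⁻¹ : MulAut (FreeGroup (Fin n))) : Out n) = ι (a * (b ^ m)⁻¹) := by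
    rw [map_mul, map_inv, map_pow, ← hα, ← hβ]; rfl
  exact (mem_HJ ι h3).2 h2

lemma HJ_bot (hn : 2 ≤ n) (hι : Function.Injective ι) (hINN : S_INN) : ⨅ c, HJ ι c = ⊥ := by
  rw [eq_bot_iff]
  intro a ha
  obtain ⟨α, hα⟩ := exists_rep ι a
  have h1 : ∀ c, α ∈ J n c := by
    intro c
    have h2 := (mem_HJ ι hα).1 (Subgroup.mem_iInf.1 ha c)
    exact J_anti n (Nat.le_succ c) h2
  obtain ⟨g, hg⟩ := hINN n hn α h1
  rw [Subgroup.mem_bot]
  apply hι
  rw [map_one, ← hα, QuotientGroup.eq_one_iff]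
  exact ⟨g, hg.symm⟩

/-- **Abelian groups of outer automorphisms.** -/
theorem good_abelian (hn : 2 ≤ n) (hι : Function.Injective ι) (hCHM : S_CHM) (hINN : S_INN)
    (hJOH : S_JOH) (hCORE : S_CORE) (hTERM : S_TERM) (hLAT : S_LAT) : Good (Fam ι) ⊤ := by
  obtain ⟨c₀, hc₀⟩ := hTERM Q (HJ ι) (HJ_anti ι) (HJ_tf ι hn hJOH) (HJ_bot ι hn hι hINN)
  have h0 : Good (Fam ι) (HJ ι 0) := by
    have key : ∀ d ≤ c₀, Good (Fam ι) (HJ ι (c₀ - d)) := by
      intro d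
      induction d with
      | zero =>
        intro _
        rw [Nat.sub_zero, hc₀]
        intro m hm
        obtain ⟨K, hK, hKf, -⟩ := hCORE n 0 1 one_pos
        refine ⟨_, ⟨K, hK, hKf, rfl⟩, fun a ha _ => ⟨1, one_mem _, ?_⟩⟩
        rw [one_pow]
        exact Subgroup.mem_bot.1 ha
      | succ d ih =>
        intro hd
        have h1 := ih (by omega)
        have h2 : c₀ - d = (c₀ - (d + 1)) + 1 := by omega
        rw [h2] at h1
        exact HJ_step ι hn hJOH hLAT _ h1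
    have := key c₀ le_rfl
    rwa [Nat.sub_self] at this
  refine Good.glue (Fam_dir ι) (Fam_pow ι) le_top h0 ?_
  intro m hm
  obtain ⟨N, hN, hN'⟩ := hCHM Q n ((Th n).comp ι) m hm
  obtain ⟨K, hK, hKf, hK'⟩ := hCORE n 1 N hN
  refine ⟨_, ⟨K, hK, hKf, rfl⟩, fun a _ ha => ?_⟩
  obtain ⟨α, hα⟩ := exists_rep ι a
  rw [Subgroup.mem_comap, ← hα, mem_NK] at ha
  obtain ⟨g, hg⟩ := ha
  obtain ⟨b, hb⟩ := hN' a (by
    intro j i
    have h1 : mag (ZMod N) (α (FreeGroup.of i)) [j] = mag (ZMod N) (FreeGroup.of i) [j] := by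
      have h2 : mag (ZMod N) (α (FreeGroup.of i) * (g * FreeGroup.of i * g⁻¹)⁻¹) [j] = 0 := by
        rw [hK' _ (hg (FreeGroup.of i)) [j] (by simp)]
        rfl
      have hinv : ∀ v : FreeGroup (Fin n), mag (ZMod N) v⁻¹ [j] = - mag (ZMod N) v [j] := by
        intro v
        have h3 := mag_mul_single (R := ZMod N) v v⁻¹ j
        rw [mul_inv_cancel, map_one, one_cons] at h3
        linear_combination -h3
      rw [mag_mul_single, hinv, mag_mul_single, mag_mul_single, hinv] at h2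
      linear_combination h2
    rw [← ZMod.intCast_zmod_eq_zero_iff_dvd]
    have h5 : ((Th n).comp ι a) j i = mag ℤ (α (FreeGroup.of i)) [j] := by
      rw [MonoidHom.comp_apply, ← hα, Th_mk]
    rw [Matrix.sub_apply, h5, Int.cast_sub]
    have h6 := map_mag (Int.castRingHom (ZMod N)) (α (FreeGroup.of i)) [j]
    rw [h1, mag_of_single] at h6
    have h7 : ((mag ℤ (α (FreeGroup.of i)) [j] : ℤ) : ZMod N) = if j = i then 1 else 0 := h6
    rw [h7, Matrix.one_apply]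
    split_ifs <;> simp)
  refine ⟨b, trivial, ?_⟩
  rw [← map_pow] at hb
  have h4 : ((Th n).comp ι) (a * (b ^ m)⁻¹) = 1 := by
    rw [map_mul, hb, ← map_mul, mul_inv_cancel, map_one]
  obtain ⟨β, hβ⟩ := exists_rep ι (a * (b ^ m)⁻¹)
  rw [mem_HJ ι hβ]
  apply mem_J_one
  rw [hβ]
  exact h4

end Ab

end Pool.Agent.V5helper35.CA
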