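import Pool.Agent.V5helper35.CA.Fin2

/-!
# Project CA: virtually abelian subgroups of `Out (F_n)`
-/

set_option autoImplicit false

namespace Pool.Agent.V5helper35.CA

open NC

/-- **Virtually abelian groups of outer automorphisms.** -/
theorem virt_of (hCHM : S_CHM) (hINN : S_INN) (hJOH : S_JOH) (hCORE : S_CORE) (hTERM : S_TERM)
    (hLAT : S_LAT) (hVIRT : S_VIRT) (n : ℕ) (hn : 2 ≤ n) (A A₀ B : Subgroup (Out n)) (h1 : A₀ ≤ A)
    (h2 : A₀.relIndex A ≠ 0) (h3 : A₀.FG) (h4 : ∀ a ∈ A₀, ∀ b ∈ A₀, a * b = b * a) (h5 : B ≤ A)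
    (h6 : B.relIndex A ≠ 0) :
    ∃ K : Subgroup (FreeGroup (Fin n)), K.Characteristic ∧ K.FiniteIndex ∧
      ∀ α : MulAut (FreeGroup (Fin n)), (α : Out n) ∈ A → InnerMod K α → (α : Out n) ∈ B := by
  obtain ⟨N, ⟨K, hK, hKf, rfl⟩, hN⟩ := hVIRT (Out n)
    {N | ∃ (K : Subgroup (FreeGroup (Fin n))) (hK : K.Characteristic), K.FiniteIndex ∧
      N = NK n K hK} (by
        rintro _ ⟨K, hK, hf, rfl⟩
        exact NK_normal n K hK)
    (by
      obtain ⟨K, hK, hKf, -⟩ := hCORE n 0 1 one_pos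
      exact ⟨_, ⟨K, hK, hKf, rfl⟩⟩)
    (by
      rintro _ ⟨K, hK, hf, rfl⟩ _ ⟨K', hK', hf', rfl⟩
      exact ⟨_, ⟨K ⊓ K', inf_char hK hK', inferInstance, rfl⟩,
        le_inf (NK_anti inf_le_left) (NK_anti inf_le_right)⟩)
    (by
      intro Q hQf hQc m hm
      letI : CommGroup ↥Q :=
        { (inferInstance : Group ↥Q) with mul_comm := fun a b => Subtype.ext (hQc a a.2 b b.2) }
      haveI : Group.FG ↥Q := (Group.fg_iff_subgroup_fg Q).2 hQf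
      obtain ⟨N, ⟨K, hK, hKf, rfl⟩, h⟩ := good_abelian (n := n) Q.subtype hn
        (Subgroup.subtype_injective Q) hCHM hINN hJOH hCORE hTERM hLAT m hm
      refine ⟨_, ⟨K, hK, hKf, rfl⟩, fun a ha haN => ?_⟩
      obtain ⟨b, -, hb⟩ := h ⟨a, ha⟩ trivial haN
      exact ⟨b.1, b.2, congrArg Subtype.val hb⟩)
    A A₀ B h1 h2 h3 h4 h5 h6
  exact ⟨K, hK, hKf, fun α hα hαK => hN ⟨hα, mem_NK.2 hαK⟩⟩

end Pool.Agent.V5helper35.CA
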