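import Pool.Agent.V5helper35.CA.Fin3
import Pool.Agent.V5helper81.CA.KUM1
import Pool.Agent.V5helper55.CA.KUM2
import Pool.Agent.V5helper16.CA.CHU1
import Pool.Agent.V5helper69.CA.SS
import Pool.Agent.V5helper72.CA.UNI
import Pool.Agent.V5helper72.CA.TERM
import Pool.Agent.V5helper72.CA.CORE
import Pool.Agent.V5helper72.CA.VIRT
import Pool.Agent.V5helper6.CA.CHM1
import Pool.Agent.V5helper31.CA.INN1
import Pool.Agent.V5helper56.CA.INN2
import Pool.Agent.V5helper61.CA.JOH1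
import Pool.Agent.V5helper23.CA.PAT

/-!
# Project CA: the assembly
-/

set_option autoImplicit false

namespace Pool.Agent.V5helper35.CA

open NC

theorem chu : S_CHU := Pool.Agent.V5helper16.CA.t_CHU1 (Pool.Agent.V5helper55.CA.t_KUM2
  Pool.Agent.V5helper81.CA.t_KUM1)

theorem chm : S_CHM := Pool.Agent.V5helper6.CA.t_CHM1 (Pool.Agent.V5helper69.CA.t_SS chu)
  Pool.Agent.V5helper72.CA.t_UNI

theorem inn : S_INN := Pool.Agent.V5helper56.CA.t_INN2 Pool.Agent.V5helper23.CA.t_PAT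
  (Pool.Agent.V5helper31.CA.t_INN1 Pool.Agent.V5helper23.CA.t_PAT)

theorem joh : S_JOH := Pool.Agent.V5helper61.CA.t_JOH1 Pool.Agent.V5helper72.CA.t_UNQ
  Pool.Agent.V5helper72.CA.t_CORE

/-- **Virtually abelian groups of outer automorphisms.** -/
theorem virt (n : ℕ) (hn : 2 ≤ n) (A A₀ B : Subgroup (Out n)) (h1 : A₀ ≤ A)
    (h2 : A₀.relIndex A ≠ 0) (h3 : A₀.FG) (h4 : ∀ a ∈ A₀, ∀ b ∈ A₀, a * b = b * a) (h5 : B ≤ A)
    (h6 : B.relIndex A ≠ 0) :
    ∃ K : Subgroup (FreeGroup (Fin n)), K.Characteristic ∧ K.FiniteIndex ∧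
      ∀ α : MulAut (FreeGroup (Fin n)), (α : Out n) ∈ A → InnerMod K α → (α : Out n) ∈ B :=
  virt_of chm inn joh Pool.Agent.V5helper72.CA.t_CORE Pool.Agent.V5helper72.CA.t_TERM
    Pool.Agent.V5helper72.CA.t_LAT Pool.Agent.V5helper72.CA.t_VIRT n hn A A₀ B h1 h2 h3 h4 h5 h6

/-- The same for a normal subgroup of finite index of `Aut (F_n)` which contains the inner automorphisms,
and all conjugates of the elements of `A`. -/
theorem virt_normal (n : ℕ) (hn : 2 ≤ n) (A A₀ : Subgroup (Out n)) (h1 : A₀ ≤ A)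
    (h2 : A₀.relIndex A ≠ 0) (h3 : A₀.FG) (h4 : ∀ a ∈ A₀, ∀ b ∈ A₀, a * b = b * a)
    (V : Subgroup (MulAut (FreeGroup (Fin n)))) (hV : V.Normal) (hVf : V.FiniteIndex)
    (hVi : ∀ g : FreeGroup (Fin n), MulAut.conj g ∈ V) :
    ∃ K : Subgroup (FreeGroup (Fin n)), K.Characteristic ∧ K.FiniteIndex ∧
      ∀ α β : MulAut (FreeGroup (Fin n)), ((β * α * β⁻¹ : MulAut (FreeGroup (Fin n))) : Out n) ∈ A →
        InnerMod K α → α ∈ V := by
  have hle : Inn n ≤ V := by
    rintro _ ⟨g, rfl⟩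
    exact hVi g
  have hf : (V.map (QuotientGroup.mk' (Inn n))).FiniteIndex := by
    refine ⟨fun h0 => hVf.index_ne_zero ?_⟩
    have h7 := Subgroup.index_map_dvd (f := QuotientGroup.mk' (Inn n)) V
      (QuotientGroup.mk'_surjective _)
    have h8 : (V.map (QuotientGroup.mk' (Inn n))).index = 0 := h0
    rw [h8] at h7
    exact Nat.eq_zero_of_zero_dvd h7
  obtain ⟨K, hK, hKf, h⟩ := virt n hn A A₀ (V.map (QuotientGroup.mk' (Inn n)) ⊓ A) h1 h2 h3 h4
    inf_le_right (by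
      rw [Subgroup.inf_relIndex_right]
      intro h0
      have h9 : (V.map (QuotientGroup.mk' (Inn n))).relIndex A ∣
        (V.map (QuotientGroup.mk' (Inn n))).index := by
        haveI : (V.map (QuotientGroup.mk' (Inn n))).Normal :=
          hV.map _ (QuotientGroup.mk'_surjective _)
        exact Subgroup.relIndex_dvd_index_of_normal _ _
      rw [h0] at h9
      exact hf.index_ne_zero (Nat.eq_zero_of_zero_dvd h9))
  refine ⟨K, hK, hKf, fun α β hα hαK => ?_⟩
  have h10 := h _ hα ((InnGroup_normal K hK).conj_mem α hαK β)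
  have h11 := (mem_map_iff hle _).1 h10.1
  have h12 := hV.conj_mem _ h11 β⁻¹
  have h13 : β⁻¹ * (β * α * β⁻¹) * β⁻¹⁻¹ = α := by group
  rwa [h13] at h12

end Pool.Agent.V5helper35.CA
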