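import Mathlib

/-!
# Project CA: noncommutative power series and the Magnus expansion
-/

set_option autoImplicit false
set_option linter.unusedSectionVars false

namespace Pool.Agent.V5helper35.CA

/-- Noncommutative power series in the variables `X i`, `i : Fin n`, over `R`: the function which
gives the coefficient of each word. -/
def NC (R : Type) (n : ℕ) : Type := List (Fin n) → R

namespace NC

variable {R : Type} [CommRing R] {n : ℕ}

instance : AddCommGroup (NC R n) := inferInstanceAs (AddCommGroup (List (Fin n) → R))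
instance : Module R (NC R n) := inferInstanceAs (Module R (List (Fin n) → R))

@[ext] lemma ext {f g : NC R n} (h : ∀ w, f w = g w) : f = g := funext h

@[simp] lemma add_apply (f g : NC R n) (w : List (Fin n)) : (f + g) w = f w + g w := rfl
@[simp] lemma sub_apply (f g : NC R n) (w : List (Fin n)) : (f - g) w = f w - g w := rfl
@[simp] lemma neg_apply (f : NC R n) (w : List (Fin n)) : (-f) w = -f w := rfl
@[simp] lemma zero_apply (w : List (Fin n)) : (0 : NC R n) w = 0 := rfl
@[simp] lemma smul_apply (a : R) (f : NC R n) (w : List (Fin n)) : (a • f) w = a * f w := rfl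

/-- The series `u ↦ f (i :: u)`. -/
def der (i : Fin n) (f : NC R n) : NC R n := fun u => f (i :: u)

@[simp] lemma der_apply (i : Fin n) (f : NC R n) (w : List (Fin n)) : der i f w = f (i :: w) := rfl
lemma der_add (i : Fin n) (f g : NC R n) : der i (f + g) = der i f + der i g := rfl
lemma der_smul (i : Fin n) (a : R) (f : NC R n) : der i (a • f) = a • der i f := rfl
lemma der_zero (i : Fin n) : der i (0 : NC R n) = 0 := rfl

/-- the product -/
def mulAux : List (Fin n) → NC R n → NC R n → R
  | [], f, g => f [] * g []
  | i :: w, f, g => f [] * g (i :: w) + mulAux w (der i f) g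

instance : Mul (NC R n) := ⟨fun f g w => mulAux w f g⟩
instance : One (NC R n) := ⟨fun w => if w = [] then 1 else 0⟩

@[simp] lemma mul_nil (f g : NC R n) : (f * g) [] = f [] * g [] := rfl
lemma mul_cons (f g : NC R n) (i : Fin n) (w : List (Fin n)) :
    (f * g) (i :: w) = f [] * g (i :: w) + (der i f * g) w := rfl
@[simp] lemma one_nil : (1 : NC R n) [] = 1 := rfl
@[simp] lemma one_cons (i : Fin n) (w : List (Fin n)) : (1 : NC R n) (i :: w) = 0 := rfl
lemma one_apply (w : List (Fin n)) : (1 : NC R n) w = if w = [] then 1 else 0 := rfl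
lemma der_one (i : Fin n) : der i (1 : NC R n) = 0 := rfl

lemma smul_mul' (a : R) (f g : NC R n) (w : List (Fin n)) :
    ((a • f) * g) w = a * (f * g) w := by
  induction w generalizing f with
  | nil => simp [mul_assoc]
  | cons i w ih => rw [mul_cons, mul_cons, der_smul, ih, smul_apply]; ring

lemma add_mul' (f f' g : NC R n) (w : List (Fin n)) :
    ((f + f') * g) w = (f * g) w + (f' * g) w := by
  induction w generalizing f f' with
  | nil => simp [add_mul]
  | cons i w ih => rw [mul_cons, mul_cons, mul_cons, der_add, ih, add_apply]; ring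

lemma mul_add' (f g g' : NC R n) (w : List (Fin n)) :
    (f * (g + g')) w = (f * g) w + (f * g') w := by
  induction w generalizing f with
  | nil => simp [mul_add]
  | cons i w ih => rw [mul_cons, mul_cons, mul_cons, ih, add_apply]; ring

lemma zero_mul' (g : NC R n) (w : List (Fin n)) : ((0 : NC R n) * g) w = 0 := by
  induction w with
  | nil => simp
  | cons i w ih => rw [mul_cons, der_zero, ih]; simp

lemma mul_zero' (f : NC R n) (w : List (Fin n)) : (f * (0 : NC R n)) w = 0 := by
  induction w generalizing f with
  | nil => simp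
  | cons i w ih => rw [mul_cons, ih]; simp

lemma der_mul (i : Fin n) (f g : NC R n) : der i (f * g) = f [] • der i g + der i f * g := by
  ext w
  rw [der_apply, mul_cons, add_apply, smul_apply, der_apply]

lemma mul_assoc' (f g h : NC R n) (w : List (Fin n)) : (f * g * h) w = (f * (g * h)) w := by
  induction w generalizing f with
  | nil => simp [mul_assoc]
  | cons i w ih =>
    rw [mul_cons, mul_cons, der_mul, add_mul', smul_mul', ih, mul_cons, mul_nil]
    ring

lemma one_mul' (g : NC R n) (w : List (Fin n)) : ((1 : NC R n) * g) w = g w := by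
  cases w with
  | nil => simp
  | cons i w => rw [mul_cons, der_one, zero_mul']; simp

lemma mul_one' (f : NC R n) (w : List (Fin n)) : (f * (1 : NC R n)) w = f w := by
  induction w generalizing f with
  | nil => simp
  | cons i w ih => rw [mul_cons, ih]; simp

instance : Ring (NC R n) :=
  { (inferInstance : AddCommGroup (NC R n)) with
    mul := (· * ·)
    one := 1
    left_distrib := fun f g h => ext (mul_add' f g h)
    right_distrib := fun f g h => ext (add_mul' f g h)
    zero_mul := fun g => ext (zero_mul' g)
    mul_zero := fun f => ext (mul_zero' f)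
    mul_assoc := fun f g h => ext (mul_assoc' f g h)
    one_mul := fun g => ext (one_mul' g)
    mul_one := fun f => ext (mul_one' f) }

/-- the variable `X i` -/
def X (i : Fin n) : NC R n := fun w => if w = [i] then 1 else 0

@[simp] lemma X_nil (i : Fin n) : (X i : NC R n) [] = 0 := rfl

lemma X_cons (i j : Fin n) (w : List (Fin n)) :
    (X i : NC R n) (j :: w) = if j = i then (1 : NC R n) w else 0 := by
  rw [X, one_apply]
  by_cases h : j = i
  · subst h
    simp
  · simp [h]

lemma der_X (i j : Fin n) : der j (X i : NC R n) = if j = i then 1 else 0 := by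
  ext w
  rw [der_apply, X_cons]
  split_ifs <;> rfl

lemma X_mul_cons (i j : Fin n) (f : NC R n) (w : List (Fin n)) :
    (X i * f : NC R n) (j :: w) = if j = i then f w else 0 := by
  rw [mul_cons, der_X, X_nil, zero_mul, zero_add]
  split_ifs
  · rw [one_mul]
  · rw [zero_mul]; rfl

@[simp] lemma X_mul_nil (i : Fin n) (f : NC R n) : (X i * f : NC R n) [] = 0 := by
  rw [mul_nil, X_nil, zero_mul]

@[simp] lemma mul_X_nil (i : Fin n) (f : NC R n) : (f * X i : NC R n) [] = 0 := by
  rw [mul_nil, X_nil, mul_zero]

lemma mul_X_append (i j : Fin n) (f : NC R n) (w : List (Fin n)) :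
    (f * X i : NC R n) (w ++ [j]) = if j = i then f w else 0 := by
  induction w generalizing f with
  | nil =>
    rw [List.nil_append, mul_cons, X_cons, one_nil, mul_X_nil, add_zero]
    split_ifs <;> simp
  | cons k w ih =>
    rw [List.cons_append, mul_cons, ih, X_cons]
    have : (1 : NC R n) (w ++ [j]) = 0 := by
      cases w <;> rfl
    rw [this]
    simp

/-! ### truncation -/

/-- equality of the coefficients of all words of length at most `c` -/
def Eqd (c : ℕ) (f g : NC R n) : Prop := ∀ w : List (Fin n), w.length ≤ c → f w = g w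

lemma Eqd.refl (c : ℕ) (f : NC R n) : Eqd c f f := fun _ _ => rfl
lemma Eqd.symm {c : ℕ} {f g : NC R n} (h : Eqd c f g) : Eqd c g f := fun w hw => (h w hw).symm
lemma Eqd.trans {c : ℕ} {f g k : NC R n} (h : Eqd c f g) (h' : Eqd c g k) : Eqd c f k :=
  fun w hw => (h w hw).trans (h' w hw)
lemma Eqd.mono {c d : ℕ} {f g : NC R n} (h : Eqd c f g) (hd : d ≤ c) : Eqd d f g :=
  fun w hw => h w (hw.trans hd)
lemma Eqd.of_eq {c : ℕ} {f g : NC R n} (h : f = g) : Eqd c f g := fun _ _ => by rw [h]

lemma Eqd.add {c : ℕ} {f f' g g' : NC R n} (h : Eqd c f f') (h' : Eqd c g g') :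
    Eqd c (f + g) (f' + g') := fun w hw => by rw [add_apply, add_apply, h w hw, h' w hw]

lemma Eqd.sub {c : ℕ} {f f' g g' : NC R n} (h : Eqd c f f') (h' : Eqd c g g') :
    Eqd c (f - g) (f' - g') := fun w hw => by rw [sub_apply, sub_apply, h w hw, h' w hw]

lemma Eqd.neg {c : ℕ} {f f' : NC R n} (h : Eqd c f f') : Eqd c (-f) (-f') :=
  fun w hw => by rw [neg_apply, neg_apply, h w hw]

lemma Eqd.mul {c : ℕ} {f f' g g' : NC R n} (h : Eqd c f f') (h' : Eqd c g g') :
    Eqd c (f * g) (f' * g') := by
  intro w
  induction w generalizing f f' c with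
  | nil => intro hw; rw [mul_nil, mul_nil, h _ hw, h' _ hw]
  | cons i w ih =>
    intro hw
    rw [mul_cons, mul_cons, h [] (Nat.zero_le _), h' _ hw]
    congr 1
    rw [List.length_cons] at hw
    exact ih (c := w.length) (fun u hu => h _ (by rw [List.length_cons]; omega))
      (fun u hu => h' u (by omega)) le_rfl

/-- a product with a factor which begins in degree `c` -/
lemma mul_top_right {c : ℕ} {f g : NC R n} (hg : Eqd c g 0) :
    ∀ w : List (Fin n), w.length ≤ c + 1 → (f * g) w = f [] * g w := by
  intro w
  induction w generalizing f with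
  | nil => intro _; rfl
  | cons i w ih =>
    intro hw
    rw [List.length_cons] at hw
    rw [mul_cons, ih (by omega), hg w (by omega)]
    simp

lemma mul_top_left {c : ℕ} {f g : NC R n} (hf : Eqd c f 0) :
    ∀ w : List (Fin n), w.length ≤ c + 1 → (f * g) w = f w * g [] := by
  intro w
  induction w generalizing f c with
  | nil => intro _; rfl
  | cons i w ih =>
    intro hw
    rw [List.length_cons] at hw
    have h0 : f [] = 0 := hf [] (Nat.zero_le _)
    rw [mul_cons, h0, zero_mul, zero_add]
    rcases c with _ | c
    · have hw0 : w = [] := List.eq_nil_of_length_eq_zero (by omega)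
      subst hw0
      rw [mul_nil, der_apply]
    · have h1 : Eqd c (der i f) 0 := fun u hu => hf (i :: u) (by rw [List.length_cons]; omega)
      rw [ih h1 (by omega), der_apply]

lemma pow_eqd_zero {f : NC R n} (h : f [] = 0) (k : ℕ) : Eqd k (f ^ (k + 1)) 0 := by
  induction k with
  | zero =>
    intro w hw
    have hw0 : w = [] := List.eq_nil_of_length_eq_zero (by omega)
    subst hw0
    rw [zero_add, pow_one, h]; rfl
  | succ k ih =>
    intro w hw
    rw [pow_succ', mul_top_right ih w hw, h, zero_mul]; rfl

/-- series with constant coefficient one have truncated inverses -/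
lemma exists_inv (c : ℕ) {f : NC R n} (h : f [] = 1) :
    ∃ g : NC R n, g [] = 1 ∧ Eqd c (f * g) 1 ∧ Eqd c (g * f) 1 := by
  obtain ⟨g, hg⟩ : ∃ g : NC R n, g = ∑ k ∈ Finset.range (c + 1), (1 - f) ^ k := ⟨_, rfl⟩
  have h0 : (1 - f : NC R n) [] = 0 := by rw [sub_apply, one_nil, h, sub_self]
  have h1 : f * g = 1 - (1 - f) ^ (c + 1) := by
    have := mul_neg_geom_sum (1 - f) (c + 1)
    rw [← hg, sub_sub_cancel] at this
    exact this
  have h2 : g * f = 1 - (1 - f) ^ (c + 1) := by
    have := geom_sum_mul_neg (1 - f) (c + 1)
    rw [← hg, sub_sub_cancel] at this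
    exact this
  have h3 : Eqd c (1 - (1 - f) ^ (c + 1) : NC R n) 1 := by
    have := Eqd.sub (Eqd.refl c (1 : NC R n)) (pow_eqd_zero h0 c)
    rwa [sub_zero] at this
  refine ⟨g, ?_, by rw [h1]; exact h3, by rw [h2]; exact h3⟩
  have h4 : (f * g) [] = 1 := by rw [h1]; exact h3 [] (Nat.zero_le _)
  rw [mul_nil, h, one_mul] at h4
  exact h4

/-! ### the Magnus expansion -/

/-- the inverse of `1 + X i` -/
def invX (i : Fin n) : NC R n := fun w => if ∀ j ∈ w, j = i then (-1) ^ w.length else 0

lemma X_mul_invX (i : Fin n) : (1 + X i : NC R n) * invX i = 1 := by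
  rw [add_mul, one_mul]
  ext w
  cases w with
  | nil => simp [invX]
  | cons j w =>
    rw [add_apply, X_mul_cons, one_cons]
    by_cases h : j = i
    · subst h
      rw [if_pos rfl]
      simp only [invX, List.mem_cons, forall_eq_or_imp, true_and, List.length_cons]
      split_ifs
      · rw [pow_succ]; ring
      · simp
    · rw [if_neg h]
      simp [invX, h]

lemma invX_mul_X (i : Fin n) : invX i * (1 + X i : NC R n) = 1 := by
  rw [mul_add, mul_one]
  ext w
  rcases List.eq_nil_or_concat w with rfl | ⟨w, j, rfl⟩
  · simp [invX]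
  · rw [List.concat_eq_append, add_apply, mul_X_append]
    have h1 : (1 : NC R n) (w ++ [j]) = 0 := by
      cases w <;> rfl
    rw [h1]
    by_cases h : j = i
    · subst h
      rw [if_pos rfl]
      simp only [invX, List.mem_append, List.mem_singleton, List.length_append,
        List.length_singleton]
      have h2 : (∀ k, k ∈ w ∨ k = j → k = j) ↔ ∀ k ∈ w, k = j :=
        ⟨fun h k hk => h k (Or.inl hk), fun h k hk => hk.elim (h k) id⟩
      simp only [h2]
      split_ifs
      · rw [pow_succ]; ring
      · simp
    · rw [if_neg h]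
      have h2 : ¬ ∀ k ∈ w ++ [j], k = i := fun h3 => h (h3 j (by simp))
      simp [invX, h]

/-- `1 + X i` as a unit -/
def uX (R : Type) [CommRing R] {n : ℕ} (i : Fin n) : (NC R n)ˣ :=
  ⟨1 + X i, invX i, X_mul_invX i, invX_mul_X i⟩

/-- the Magnus expansion -/
def mag (R : Type) [CommRing R] {n : ℕ} : FreeGroup (Fin n) →* NC R n :=
  (Units.coeHom (NC R n)).comp (FreeGroup.lift (uX R))

lemma mag_of (i : Fin n) : mag R (FreeGroup.of i) = 1 + X i := by
  rw [mag, MonoidHom.comp_apply, FreeGroup.lift_apply_of]; rfl

lemma mag_of_inv (i : Fin n) : mag R (FreeGroup.of i)⁻¹ = invX i := by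
  rw [mag, MonoidHom.comp_apply, map_inv, FreeGroup.lift_apply_of]; rfl

@[simp] lemma mag_mul_inv (w : FreeGroup (Fin n)) : mag R w * mag R w⁻¹ = 1 := by
  rw [← map_mul, mul_inv_cancel, map_one]

@[simp] lemma mag_inv_mul (w : FreeGroup (Fin n)) : mag R w⁻¹ * mag R w = 1 := by
  rw [← map_mul, inv_mul_cancel, map_one]

lemma mag_nil (w : FreeGroup (Fin n)) : mag R w [] = 1 := by
  induction w using FreeGroup.induction_on with
  | C1 => rw [map_one]; rfl
  | of i => rw [mag_of, add_apply, one_nil, X_nil, add_zero]
  | inv_of i _ => rw [mag_of_inv]; simp [invX]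
  | mul u v hu hv => rw [map_mul, mul_nil, hu, hv, one_mul]

lemma mul_single (f g : NC R n) (i : Fin n) : (f * g) [i] = f [] * g [i] + f [i] * g [] := by
  rw [mul_cons, mul_nil, der_apply]

lemma mag_mul_single (u v : FreeGroup (Fin n)) (i : Fin n) :
    mag R (u * v) [i] = mag R u [i] + mag R v [i] := by
  rw [map_mul, mul_single, mag_nil, mag_nil, one_mul, mul_one, add_comm]

lemma mag_of_single (i j : Fin n) : mag R (FreeGroup.of i) [j] = if j = i then 1 else 0 := by
  rw [mag_of, add_apply, one_cons, zero_add, X_cons, one_nil]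

/-- change of the coefficient ring -/
def map {S : Type} [CommRing S] (φ : R →+* S) (f : NC R n) : NC S n := fun w => φ (f w)

lemma map_mul' {S : Type} [CommRing S] (φ : R →+* S) (f g : NC R n) :
    map φ (f * g) = map φ f * map φ g := by
  ext w
  induction w generalizing f with
  | nil => simp [map]
  | cons i w ih =>
    have h1 : der i (map φ f) = map φ (der i f) := rfl
    rw [mul_cons, h1, ← ih]
    simp [map, mul_cons]

lemma map_mag {S : Type} [CommRing S] (φ : R →+* S) (w : FreeGroup (Fin n)) (v : List (Fin n)) :
    φ (mag R w v) = mag S w v := by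
  have key : map φ (mag R w) = mag S w := by
    induction w using FreeGroup.induction_on with
    | C1 =>
      rw [map_one, map_one]
      ext v
      simp only [map, one_apply]
      split_ifs <;> simp
    | of i =>
      rw [mag_of, mag_of]
      ext v
      simp only [map, add_apply, one_apply, X]
      split_ifs <;> simp
    | inv_of i _ =>
      rw [mag_of_inv, mag_of_inv]
      ext v
      simp only [map, invX]
      split_ifs <;> simp
    | mul u v hu hv => rw [_root_.map_mul, _root_.map_mul, map_mul', hu, hv]
  rw [← key]; rfl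

end NC

end Pool.Agent.V5helper35.CA
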